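import Pool.Agent.helper52.Tight.Stage1
import Pool.Agent.helper68.Tight.T9

set_option linter.all false

namespace Pool.Agent.helper11.Tight

open Finset

section general
variable {V : Type*} [Fintype V] [DecidableEq V]

/-- a vertex not adjacent to `w` is `Q`-related to at most `K` neighbours of `w` -/
theorem few_Q {H : SimpleGraph V} {d K : ℕ} (hH : Base H d) (hp : FewP3 H K) {w x : V}
    (h : ¬ H.Adj w x) (S : Finset V) (hS : ∀ x' ∈ S, H.Adj w x' ∧ Q H x x') : S.card ≤ K := by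
  classical
  by_cases hwx : w = x
  · subst hwx
    have : S = ∅ := by
      apply Finset.eq_empty_of_forall_notMem
      intro x' hx'
      obtain ⟨h1, h2⟩ := hS x' hx'
      rcases h2 with h2 | ⟨z, h3, h4⟩
      · exact H.ne_of_adj h1 h2
      · exact hH.tri w x' z h1 h4 h3
    simp [this]
  · refine le_trans ?_ (hp w x hwx)
    have hex : ∀ x' ∈ S, ∃ z, H.Adj x z ∧ H.Adj x' z := by
      intro x' hx'
      obtain ⟨h1, h2⟩ := hS x' hx'
      rcases h2 with h2 | ⟨z, h3, h4⟩
      · exact absurd (h2 ▸ h1) h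
      · exact ⟨z, h3, h4⟩
    choose! f hf using hex
    refine Finset.card_le_card_of_injOn (fun x' => (x', f x')) ?_ ?_
    · intro x' hx'
      have h1 := hS x' hx'
      have h2 := hf x' hx'
      simp only [Finset.mem_coe, mem_P3]
      refine ⟨h1.1, h2.2, h2.1.symm, ?_, ?_⟩
      · rintro rfl
        exact h h1.1
      · intro h3
        exact h (h3 ▸ h2.1).symm
    · intro a ha b hb hab
      simpa using (congrArg Prod.fst hab)

end general

variable {X Y : Type*} [Fintype X] [DecidableEq X] [Fintype Y] [DecidableEq Y]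

/-- a column of a set of cells -/
def col (I : Finset (X × Y)) (y : Y) : Finset X := Finset.univ.filter (fun x => (x, y) ∈ I)

/-- a row of a set of cells -/
def row (I : Finset (X × Y)) (x : X) : Finset Y := Finset.univ.filter (fun y => (x, y) ∈ I)

@[simp] theorem mem_col {I : Finset (X × Y)} {x : X} {y : Y} : x ∈ col I y ↔ (x, y) ∈ I := by
  simp [col]

@[simp] theorem mem_row {I : Finset (X × Y)} {x : X} {y : Y} : y ∈ row I x ↔ (x, y) ∈ I := by
  simp [row]

theorem sum_col (I : Finset (X × Y)) : ∑ y, (col I y).card = I.card := by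
  classical
  rw [Finset.card_eq_sum_card_fiberwise (f := Prod.snd) (t := Finset.univ)
    (fun _ _ => Finset.mem_coe.2 (Finset.mem_univ _))]
  apply Finset.sum_congr rfl
  intro y _
  apply Finset.card_bij (fun x _ => (x, y))
  · intro x hx
    simpa using hx
  · intro a _ b _ hab
    simpa using congrArg Prod.fst hab
  · rintro ⟨x, y'⟩ hb
    simp only [Finset.mem_filter] at hb
    obtain ⟨hb1, rfl⟩ := hb
    exact ⟨x, by simpa using hb1, rfl⟩

theorem sum_row (I : Finset (X × Y)) : ∑ x, (row I x).card = I.card := by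
  classical
  rw [Finset.card_eq_sum_card_fiberwise (f := Prod.fst) (t := Finset.univ)
    (fun _ _ => Finset.mem_coe.2 (Finset.mem_univ _))]
  apply Finset.sum_congr rfl
  intro x _
  apply Finset.card_bij (fun y _ => (x, y))
  · intro y hy
    simpa using hy
  · intro a _ b _ hab
    simpa using congrArg Prod.snd hab
  · rintro ⟨x', y⟩ hb
    simp only [Finset.mem_filter] at hb
    obtain ⟨hb1, rfl⟩ := hb
    exact ⟨y, by simpa using hb1, rfl⟩

theorem card_X' {H : SimpleGraph X} {d m1 : ℕ} (hH : Base H d)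
    (hX : Fintype.card X = 1 + d * (d - 1) + d + m1) (w : X) (S : Finset X)
    (hS : ∀ x, x ∈ S ↔ ¬ Q H w x ∧ ¬ H.Adj w x) : S.card = m1 := by
  classical
  have h1 := Q_card hH w
  have h2 := hH.reg w
  have hdis : Disjoint (Finset.univ.filter (fun x => Q H w x)) (nb H w) := by
    rw [Finset.disjoint_left]
    intro x hx hx'
    simp only [Finset.mem_filter, Finset.mem_univ, true_and, mem_nb] at hx hx'
    rcases hx with rfl | ⟨z, h3, h4⟩
    · exact H.loopless.irrefl _ hx'
    · exact hH.tri w x z hx' h4 h3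
  have hun : (Finset.univ : Finset X) =
      (Finset.univ.filter (fun x => Q H w x) ∪ nb H w) ∪ S := by
    ext x
    simp only [Finset.mem_univ, Finset.mem_union, Finset.mem_filter, true_and, mem_nb, hS, true_iff]
    tauto
  have hdis2 : Disjoint (Finset.univ.filter (fun x => Q H w x) ∪ nb H w) S := by
    rw [Finset.disjoint_left]
    intro x hx hx'
    simp only [Finset.mem_union, Finset.mem_filter, Finset.mem_univ, true_and, mem_nb] at hx
    rw [hS] at hx'
    tauto
  have := congrArg Finset.card hun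
  rw [Finset.card_union_of_disjoint hdis2, Finset.card_union_of_disjoint hdis,
    Finset.card_univ, hX, h1, h2] at this
  omega

/-- missing cells, counted by columns -/
theorem miss_col (Ms : Finset (X × Y)) (T : Finset Y) (f : ℕ)
    (h : ∀ y ∈ T, f ≤ (col Ms y).card) : T.card * f ≤ Ms.card := by
  classical
  rw [← sum_col Ms]
  calc T.card * f = ∑ y ∈ T, f := by simp
    _ ≤ ∑ y ∈ T, (col Ms y).card := Finset.sum_le_sum h
    _ ≤ ∑ y, (col Ms y).card := Finset.sum_le_sum_of_subset (Finset.subset_univ _)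

theorem miss_row (Ms : Finset (X × Y)) (T : Finset X) (f : ℕ)
    (h : ∀ x ∈ T, f ≤ (row Ms x).card) : T.card * f ≤ Ms.card := by
  classical
  rw [← sum_row Ms]
  calc T.card * f = ∑ x ∈ T, f := by simp
    _ ≤ ∑ x ∈ T, (row Ms x).card := Finset.sum_le_sum h
    _ ≤ ∑ x, (row Ms x).card := Finset.sum_le_sum_of_subset (Finset.subset_univ _)

/-- missing cells, two disjoint families of columns -/
theorem miss_col2 (Ms : Finset (X × Y)) (T T' : Finset Y) (f f' : ℕ) (hd : Disjoint T T')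
    (h : ∀ y ∈ T, f ≤ (col Ms y).card) (h' : ∀ y ∈ T', f' ≤ (col Ms y).card) :
    T.card * f + T'.card * f' ≤ Ms.card := by
  classical
  rw [← sum_col Ms]
  calc T.card * f + T'.card * f' = ∑ y ∈ T, f + ∑ y ∈ T', f' := by simp
    _ ≤ ∑ y ∈ T, (col Ms y).card + ∑ y ∈ T', (col Ms y).card :=
        Nat.add_le_add (Finset.sum_le_sum h) (Finset.sum_le_sum h')
    _ = ∑ y ∈ T ∪ T', (col Ms y).card := (Finset.sum_union hd).symm
    _ ≤ ∑ y, (col Ms y).card := Finset.sum_le_sum_of_subset (Finset.subset_univ _)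

theorem star_count {H : SimpleGraph X} {d : ℕ} (hH : Base H d) (w : X) (I : Finset (X × Y)) :
    (I.filter (fun p => p.1 ∉ nb H w)).card + d * Fintype.card Y =
      I.card + ((nb H w ×ˢ (Finset.univ : Finset Y)) \ I).card := by
  classical
  have h1 : I.card = (I.filter (fun p => p.1 ∈ nb H w)).card +
      (I.filter (fun p => p.1 ∉ nb H w)).card :=
    (Finset.card_filter_add_card_filter_not (s := I) (fun p => p.1 ∈ nb H w)).symm
  have h2 : ((nb H w ×ˢ (Finset.univ : Finset Y))).card = d * Fintype.card Y := by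
    rw [Finset.card_product, hH.reg w, Finset.card_univ]
  have h3 : ((nb H w ×ˢ (Finset.univ : Finset Y)) ∩ I) = I.filter (fun p => p.1 ∈ nb H w) := by
    ext p
    simp only [Finset.mem_inter, Finset.mem_product, Finset.mem_univ, and_true, Finset.mem_filter]
    tauto
  have h4 := Finset.card_inter_add_card_sdiff (nb H w ×ˢ (Finset.univ : Finset Y)) I
  rw [h3, h2] at h4
  omega

/-- consequences of the first centre -/
theorem stage2 {H1 : SimpleGraph X} {H2 : SimpleGraph Y}
    {d1 M1 β1 e1 q1 m1 d2 M2 β2 e2 q2 r2 K θ : ℕ}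
    (h1 : Good H1 d1 β1 K θ e1) (h2 : Good H2 d2 β2 K θ e2)
    (hX : Fintype.card X = M1) (hY : Fintype.card Y = M2)
    (hc : PC d1 M1 β1 q1 m1 d2 M2 β2 e2 q2 r2 K θ) (I : Finset (X × Y))
    (hr : ∀ x y x' y', (x, y) ∈ I → (x', y') ∈ I → H1.Adj x x' → Q H2 y y')
    (hq : ∀ x y x' y', (x, y) ∈ I → (x', y') ∈ I → H2.Adj y y' → Q H1 x x')
    (hbig : d1 * r2 + d2 * m1 < I.card) (w0 : X) (U0 : Finset Y) (hU0 : U0.card < β2)
    (hcen : ∀ x y, (x, y) ∈ I → y ∉ U0 → H1.Adj w0 x) :
    ∃ (U : Finset Y) (J Ms : Finset (X × Y)),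
      J = I.filter (fun p => p.1 ∉ nb H1 w0) ∧ Ms = (nb H1 w0 ×ˢ Finset.univ) \ I ∧
      U = J.image Prod.snd ∧ U.card < β2 ∧
      (∀ p ∈ J, ¬ Q H1 w0 p.1 ∧ ¬ H1.Adj w0 p.1) ∧
      d2 * m1 + 1 + Ms.card ≤ J.card + d1 * q2 ∧
      (∀ y ∈ nbs H2 U, d1 - K ≤ (col Ms y).card) ∧
      5 * (2 * β1 * U.card) ≤ d1 * q2 := by
  classical
  have hB1 := h1.toBase
  have hB2 := h2.toBase
  obtain ⟨hq1, hq2, hM1, hM2, hβ1, hβ2, hKθ, hθ, hθd, hKd, hKe, N1, N2, N3, N4, N5, N6, N7, N8,
    N9⟩ := hc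
  set J := I.filter (fun p => p.1 ∉ nb H1 w0) with hJdef
  set Ms := (nb H1 w0 ×ˢ (Finset.univ : Finset Y)) \ I with hMsdef
  set U := J.image Prod.snd with hUdef
  have hJI : ∀ p ∈ J, p ∈ I ∧ ¬ H1.Adj w0 p.1 := by
    intro p hp
    simpa [hJdef] using hp
  have hUU : U ⊆ U0 := by
    intro y hy
    rw [hUdef, Finset.mem_image] at hy
    obtain ⟨p, hp, rfl⟩ := hy
    by_contra hcon
    obtain ⟨hp1, hp2⟩ := hJI p hp
    exact hp2 (hcen p.1 p.2 hp1 hcon)
  have hUc : U.card < β2 := lt_of_le_of_lt (Finset.card_le_card hUU) hU0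
  have hstar : J.card + d1 * M2 = I.card + Ms.card := by
    have := star_count hB1 w0 I
    rw [hY] at this
    exact this
  have hstar2 : d2 * m1 + 1 + Ms.card ≤ J.card + d1 * q2 := by
    rw [hM2] at hstar
    have : d1 * (q2 + r2) = d1 * q2 + d1 * r2 := by ring
    omega
  -- columns next to `U`
  have hcolK : ∀ y ∈ nbs H2 U, d1 - K ≤ (col Ms y).card := by
    intro y' hy'
    rw [mem_nbs] at hy'
    obtain ⟨y, hy, hadj⟩ := hy'
    rw [hUdef, Finset.mem_image] at hy
    obtain ⟨⟨x, y1⟩, hp, rfl⟩ := hy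
    obtain ⟨hp1, hp2⟩ := hJI _ hp
    simp only at hp1 hp2 hadj
    have hcol : col Ms y' = nb H1 w0 \ ((nb H1 w0) ∩ col I y') := by
      ext x'
      simp only [hMsdef, mem_col, Finset.mem_sdiff, Finset.mem_product, Finset.mem_univ, and_true,
        Finset.mem_inter]
      tauto
    have hfew : ((nb H1 w0) ∩ col I y').card ≤ K := by
      apply few_Q hB1 h1.p3 hp2
      intro x' hx'
      rw [Finset.mem_inter, mem_nb, mem_col] at hx'
      exact ⟨hx'.1, hq x y1 x' y' hp1 hx'.2 hadj⟩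
    rw [hcol, Finset.card_sdiff_of_subset Finset.inter_subset_left, hB1.reg]
    omega
  have hmcol : (nbs H2 U).card * (d1 - K) ≤ Ms.card := miss_col Ms _ _ hcolK
  have hexp : e2 * U.card ≤ (nbs H2 U).card := h2.ex U (by omega)
  -- damaged rows
  set D := (nb H1 w0).filter (fun x' => ∃ p ∈ J, H1.Adj p.1 x') with hDdef
  have hmrow : D.card * r2 ≤ Ms.card := by
    apply miss_row
    intro x' hx'
    rw [hDdef, Finset.mem_filter] at hx'
    obtain ⟨hx1, ⟨x, y⟩, hp, hadj⟩ := hx'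
    obtain ⟨hp1, hp2⟩ := hJI _ hp
    simp only at hp1 hp2 hadj
    have hrow : row Ms x' = Finset.univ \ row I x' := by
      ext y'
      simp only [hMsdef, mem_row, Finset.mem_sdiff, Finset.mem_product, Finset.mem_univ, and_true,
        true_and]
      tauto
    have hrq : row I x' ⊆ Finset.univ.filter (fun y' => Q H2 y y') := by
      intro y' hy'
      rw [mem_row] at hy'
      simp only [Finset.mem_filter, Finset.mem_univ, true_and]
      exact hr x y x' y' hp1 hy' hadj
    have hcq := Finset.card_le_card hrq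
    rw [Q_card hB2 y, ← hq2] at hcq
    rw [hrow, Finset.card_sdiff_of_subset (Finset.subset_univ _), Finset.card_univ, hY, hM2]
    omega
  -- upper bound for `J`
  set Jb := J.filter (fun p => ∃ x' ∈ D, H1.Adj p.1 x') with hJbdef
  set Ja := J.filter (fun p => ¬ ∃ x' ∈ D, H1.Adj p.1 x') with hJadef
  have hJsplit : J.card = Jb.card + Ja.card :=
    (Finset.card_filter_add_card_filter_not (s := J) (fun p => ∃ x' ∈ D, H1.Adj p.1 x')).symm
  have hJa : ∀ p ∈ Ja, ¬ Q H1 w0 p.1 ∧ ¬ H1.Adj w0 p.1 := by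
    intro p hp
    rw [hJadef, Finset.mem_filter] at hp
    obtain ⟨hp1, hp2⟩ := hp
    obtain ⟨hp3, hp4⟩ := hJI p hp1
    refine ⟨?_, hp4⟩
    have hmem : ∀ x', H1.Adj w0 x' → H1.Adj p.1 x' → x' ∈ D := by
      intro x' hx1 hx2
      rw [hDdef, Finset.mem_filter, mem_nb]
      exact ⟨hx1, p, hp1, hx2⟩
    rintro (h | ⟨z, hz1, hz2⟩)
    · -- `w0 = p.1`
      have hd1 : 0 < d1 := by
        rcases Nat.eq_zero_or_pos d1 with h0 | h0
        · subst h0
          omega
        · exact h0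
      have : 0 < (nb H1 w0).card := by rw [hB1.reg]; exact hd1
      obtain ⟨z, hz⟩ := Finset.card_pos.1 this
      rw [mem_nb] at hz
      exact hp2 ⟨z, hmem z hz (h ▸ hz), h ▸ hz⟩
    · exact hp2 ⟨z, hmem z hz1 hz2, hz2⟩
  have hUJ : ∀ p ∈ J, p.2 ∈ U := fun p hp => Finset.mem_image_of_mem _ hp
  have hJbc : Jb.card ≤ D.card * d1 * U.card := by
    have hsub : Jb ⊆ (nbs H1 D) ×ˢ U := by
      intro p hp
      rw [hJbdef, Finset.mem_filter] at hp
      obtain ⟨hp1, x', hx', hadj⟩ := hp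
      rw [Finset.mem_product, mem_nbs]
      exact ⟨⟨x', hx', hadj.symm⟩, hUJ p hp1⟩
    refine le_trans (Finset.card_le_card hsub) ?_
    rw [Finset.card_product]
    apply Nat.mul_le_mul_right
    exact Finset.card_biUnion_le_card_mul _ _ _ (fun x _ => (hB1.reg x).le)
  have hJac : Ja.card ≤ 2 * β1 * U.card + m1 * d2 := by
    set X' := Finset.univ.filter (fun x => ¬ Q H1 w0 x ∧ ¬ H1.Adj w0 x) with hX'def
    have hX'c : X'.card = m1 := by
      apply card_X' hB1 (m1 := m1) (by rw [hX, hM1, hq1]) w0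
      intro x
      simp [hX'def]
    have hmass := mass_le (H := H1) (H' := H2) h1.bi hβ1 hB2 h2.bic (by omega : θ ≤ d2)
      (row Ja) (by
        intro x x' hadj y hy y' hy'
        rw [mem_row] at hy hy'
        have h3 := (Finset.mem_filter.1 hy).1
        have h4 := (Finset.mem_filter.1 hy').1
        exact hr x y x' y' (hJI _ h3).1 (hJI _ h4).1 hadj) X' U (by
        intro x _ y hy
        rw [mem_row] at hy
        exact hUJ _ (Finset.mem_filter.1 hy).1)
    rw [hX'c] at hmass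
    have hsum : Ja.card = ∑ x ∈ X', (row Ja x).card := by
      rw [← sum_row Ja]
      symm
      apply Finset.sum_subset (Finset.subset_univ _)
      intro x _ hx
      rw [Finset.card_eq_zero]
      apply Finset.eq_empty_of_forall_notMem
      intro y hy
      rw [mem_row] at hy
      apply hx
      rw [hX'def, Finset.mem_filter]
      exact ⟨Finset.mem_univ _, hJa _ hy⟩
    rw [hsum]
    exact hmass
  -- no damaged row
  have hkey : 1 + Ms.card ≤ d1 * q2 + D.card * d1 * U.card + 2 * β1 * U.card := by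
    have : m1 * d2 = d2 * m1 := by ring
    omega
  have hA1 : 8 * (2 * β1 * U.card) ≤ d1 * (nbs H2 U).card := by
    calc 8 * (2 * β1 * U.card) = (16 * β1) * U.card := by ring
      _ ≤ (d1 * e2) * U.card := Nat.mul_le_mul_right _ N4
      _ = d1 * (e2 * U.card) := by ring
      _ ≤ d1 * (nbs H2 U).card := Nat.mul_le_mul_left _ hexp
  have hA2 : 3 * (d1 * (nbs H2 U).card) ≤ 4 * ((nbs H2 U).card * (d1 - K)) := by
    have : 3 * d1 ≤ 4 * (d1 - K) := by omega
    calc 3 * (d1 * (nbs H2 U).card) = (3 * d1) * (nbs H2 U).card := by ring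
      _ ≤ (4 * (d1 - K)) * (nbs H2 U).card := Nat.mul_le_mul_right _ this
      _ = 4 * ((nbs H2 U).card * (d1 - K)) := by ring
  have hD0 : D.card = 0 := by
    by_contra hne
    have hpos : 1 ≤ D.card := Nat.one_le_iff_ne_zero.2 hne
    have hB : D.card * d1 * U.card ≤ D.card * (d1 * β2) := by
      rw [Nat.mul_assoc]
      exact Nat.mul_le_mul_left _ (Nat.mul_le_mul_left _ hUc.le)
    have hC : D.card * r2 + D.card * q2 = D.card * M2 := by rw [hM2]; ring
    have hE : D.card * (8 * (q2 + d1 * β2)) ≤ D.card * M2 := Nat.mul_le_mul_left _ N3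
    have hE' : D.card * (8 * (q2 + d1 * β2)) = 8 * (D.card * q2) + 8 * (D.card * (d1 * β2)) := by
      ring
    have hF : M2 ≤ D.card * M2 := Nat.le_mul_of_pos_left _ hpos
    have hG : 8 * (d1 * q2) < M2 := by
      have : 8 * d1 * q2 = 8 * (d1 * q2) := by ring
      omega
    omega
  have hDe : D = ∅ := Finset.card_eq_zero.1 hD0
  refine ⟨U, J, Ms, rfl, rfl, rfl, hUc, ?_, hstar2, hcolK, ?_⟩
  · intro p hp
    apply hJa
    rw [hJadef, Finset.mem_filter]
    refine ⟨hp, ?_⟩
    rintro ⟨x', hx', _⟩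
    rw [hDe] at hx'
    exact absurd hx' (Finset.notMem_empty _)
  · rw [hD0] at hkey
    simp only [Nat.zero_mul, Nat.add_zero] at hkey
    omega

theorem indep_lt {V : Type*} [Fintype V] [DecidableEq V] {H : SimpleGraph V} {β : ℕ}
    (hbi : Bi H β) (S : Finset V) (hS : ∀ a ∈ S, ∀ b ∈ S, ¬ H.Adj a b) : S.card < 2 * β := by
  classical
  by_contra hcon
  push Not at hcon
  obtain ⟨A, hAS, hA⟩ := Finset.exists_subset_card_eq (show β ≤ S.card by omega)
  have hB : β ≤ (S \ A).card := by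
    rw [Finset.card_sdiff_of_subset hAS]
    omega
  obtain ⟨a, ha, b, hb, hab⟩ := hbi A (S \ A) Finset.disjoint_sdiff hA.ge hB
  exact hS a (hAS ha) b (Finset.sdiff_subset hb) hab

/-- the second centre -/
theorem stage3 {H1 : SimpleGraph X} {H2 : SimpleGraph Y}
    {d1 M1 β1 e1 q1 m1 d2 M2 β2 e2 q2 r2 K θ : ℕ}
    (h1 : Good H1 d1 β1 K θ e1) (h2 : Good H2 d2 β2 K θ e2)
    (hX : Fintype.card X = M1) (hY : Fintype.card Y = M2)
    (hc : PC d1 M1 β1 q1 m1 d2 M2 β2 e2 q2 r2 K θ) (J : Finset (X × Y))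
    (hr : ∀ x y x' y', (x, y) ∈ J → (x', y') ∈ J → H1.Adj x x' → Q H2 y y')
    (w0 : X) (U : Finset Y) (hUJ : ∀ p ∈ J, p.2 ∈ U)
    (hJ : ∀ p ∈ J, ¬ Q H1 w0 p.1 ∧ ¬ H1.Adj w0 p.1)
    (m : ℕ) (hm : d2 * m1 + 1 + m ≤ J.card + d1 * q2) (hu : 5 * (2 * β1 * U.card) ≤ d1 * q2) :
    ∃ y0, (Finset.univ.filter (fun x => ¬ (row J x ⊆ nb H2 y0))).card < β1 := by
  classical
  have hB1 := h1.toBase
  have hB2 := h2.toBase
  obtain ⟨hq1, hq2, hM1, hM2, hβ1, hβ2, hKθ, hθ, hθd, hKd, hKe, N1, N2, N3, N4, N5, N6, N7, N8,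
    N9⟩ := hc
  set X' := Finset.univ.filter (fun x => ¬ Q H1 w0 x ∧ ¬ H1.Adj w0 x) with hX'def
  have hX'c : X'.card = m1 := by
    apply card_X' hB1 (m1 := m1) (by rw [hX, hM1, hq1]) w0
    intro x
    simp [hX'def]
  have hsum : J.card = ∑ x ∈ X', (row J x).card := by
    rw [← sum_row J]
    symm
    apply Finset.sum_subset (Finset.subset_univ _)
    intro x _ hx
    rw [Finset.card_eq_zero]
    apply Finset.eq_empty_of_forall_notMem
    intro y hy
    rw [mem_row] at hy
    apply hx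
    rw [hX'def, Finset.mem_filter]
    exact ⟨Finset.mem_univ _, hJ _ hy⟩
  set R := X'.filter (fun x => θ < (row J x).card) with hRdef
  set P := X'.filter (fun x => ¬ θ < (row J x).card) with hPdef
  have hRP : R.card + P.card = m1 := by
    rw [← hX'c]
    exact Finset.card_filter_add_card_filter_not (s := X') (fun x => θ < (row J x).card)
  have hsum2 : J.card = ∑ x ∈ R, (row J x).card + ∑ x ∈ P, (row J x).card := by
    rw [hsum]
    exact (Finset.sum_filter_add_sum_filter_not X' (fun x => θ < (row J x).card) _).symm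
  have hPs : ∑ x ∈ P, (row J x).card ≤ P.card * θ := by
    calc ∑ x ∈ P, (row J x).card ≤ ∑ x ∈ P, θ := by
          apply Finset.sum_le_sum
          intro x hx
          rw [hPdef, Finset.mem_filter] at hx
          omega
      _ = P.card * θ := by simp
  have hcompat : ∀ x x', H1.Adj x x' → ∀ y ∈ row J x, ∀ y' ∈ row J x', Q H2 y y' := by
    intro x x' hadj y hy y' hy'
    rw [mem_row] at hy hy'
    exact hr x y x' y' hy hy' hadj
  have hmass := mass_le (H := H1) (H' := H2) h1.bi hβ1 hB2 h2.bic (by omega : θ ≤ d2)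
      (row J) hcompat R U (by
        intro x _ y hy
        rw [mem_row] at hy
        exact hUJ _ hy)
  have hd2 : 0 < d2 := by omega
  have hq2d : q2 ≤ d2 * d2 := by
    rw [hq2]
    obtain ⟨t, rfl⟩ : ∃ t, d2 = t + 1 := ⟨d2 - 1, by omega⟩
    have : t + 1 - 1 = t := by omega
    rw [this]
    nlinarith
  have hPbound : P.card ≤ 3 * (d1 * d2) := by
    by_contra hcon
    push Not at hcon
    have e1 : P.card * (2 * θ) ≤ P.card * d2 := Nat.mul_le_mul_left _ hθd
    have e2 : R.card * d2 + P.card * d2 = m1 * d2 := by rw [← hRP]; ring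
    have e3 : m1 * d2 = d2 * m1 := by ring
    have e4 : P.card * (2 * θ) = 2 * (P.card * θ) := by ring
    have e5 : d1 * q2 ≤ d1 * d2 * d2 := by
      calc d1 * q2 ≤ d1 * (d2 * d2) := Nat.mul_le_mul_left _ hq2d
        _ = d1 * d2 * d2 := by ring
    have e6 : (3 * (d1 * d2) + 1) * d2 ≤ P.card * d2 := Nat.mul_le_mul_right _ hcon
    have e7 : (3 * (d1 * d2) + 1) * d2 = 3 * (d1 * d2 * d2) + d2 := by ring
    omega
  -- isolated rich rows
  set Iso := R.filter (fun x => ¬ ∃ x', H1.Adj x x' ∧ θ < (row J x').card) with hIsodef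
  set L := R.filter (fun x => ∃ x', H1.Adj x x' ∧ θ < (row J x').card) with hLdef
  have hLI : L.card + Iso.card = R.card :=
    Finset.card_filter_add_card_filter_not (s := R)
      (fun x => ∃ x', H1.Adj x x' ∧ θ < (row J x').card)
  have hIso : Iso.card < 2 * β1 := by
    apply indep_lt h1.bi
    intro a ha b hb hab
    rw [hIsodef, Finset.mem_filter] at ha hb
    apply ha.2
    rw [hRdef, Finset.mem_filter] at hb
    exact ⟨b, hab, hb.1.2⟩
  have hLc : 3 * β1 ≤ L.card := by
    have : 4 * (3 * d1 * d2 + 2 * β1) = 4 * (3 * (d1 * d2)) + 8 * β1 := by ring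
    omega
  exact centre (H := H1) (H' := H2) h1.bi hβ1 hB2 h2.p3 h2.bic hKθ (by omega) (row J) hcompat L
    (by
      intro x hx
      rw [hLdef, Finset.mem_filter, hRdef, Finset.mem_filter] at hx
      exact ⟨hx.1.2, hx.2⟩) hLc

theorem stage4 {H1 : SimpleGraph X} {H2 : SimpleGraph Y}
    {d1 M1 β1 e1 q1 m1 d2 M2 β2 e2 q2 r2 K θ : ℕ}
    (h1 : Good H1 d1 β1 K θ e1) (h2 : Good H2 d2 β2 K θ e2)
    (hX : Fintype.card X = M1) (hY : Fintype.card Y = M2)
    (hc : PC d1 M1 β1 q1 m1 d2 M2 β2 e2 q2 r2 K θ) (I : Finset (X × Y))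
    (hr : ∀ x y x' y', (x, y) ∈ I → (x', y') ∈ I → H1.Adj x x' → Q H2 y y')
    (hq : ∀ x y x' y', (x, y) ∈ I → (x', y') ∈ I → H2.Adj y y' → Q H1 x x')
    (w0 : X) (U : Finset Y) (J Ms : Finset (X × Y))
    (hJ0 : J = I.filter (fun p => p.1 ∉ nb H1 w0))
    (hMs0 : Ms = (nb H1 w0 ×ˢ Finset.univ) \ I)
    (hU0 : U = J.image Prod.snd) (hUc : U.card < β2)
    (hJ : ∀ p ∈ J, ¬ Q H1 w0 p.1 ∧ ¬ H1.Adj w0 p.1)
    (hstar : d2 * m1 + 1 + Ms.card ≤ J.card + d1 * q2)
    (hcolK : ∀ y ∈ nbs H2 U, d1 - K ≤ (col Ms y).card)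
    (y0 : Y) (hy0 : (Finset.univ.filter (fun x => ¬ (row J x ⊆ nb H2 y0))).card < β1) :
    False := by
  classical
  have hB1 := h1.toBase
  have hB2 := h2.toBase
  obtain ⟨hq1, hq2, hM1, hM2, hβ1, hβ2, hKθ, hθ, hθd, hKd, hKe, N1, N2, N3, N4, N5, N6, N7, N8,
    N9⟩ := hc
  have hJI : ∀ p ∈ J, p ∈ I := by
    intro p hp
    rw [hJ0, Finset.mem_filter] at hp
    exact hp.1
  have hUJ : ∀ p ∈ J, p.2 ∈ U := fun p hp => hU0 ▸ Finset.mem_image_of_mem _ hp
  set X' := Finset.univ.filter (fun x => ¬ Q H1 w0 x ∧ ¬ H1.Adj w0 x) with hX'def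
  have hX'c : X'.card = m1 := by
    apply card_X' hB1 (m1 := m1) (by rw [hX, hM1, hq1]) w0
    intro x
    simp [hX'def]
  set V1 := Finset.univ.filter (fun x => ¬ (row J x ⊆ nb H2 y0)) with hV1def
  set B0 := nb H2 y0 ∩ U with hB0def
  set Aa := nb H2 y0 \ U with hAadef
  set U2 := U \ nb H2 y0 with hU2def
  set QQ := Finset.univ.filter (fun y => Q H2 y0 y) with hQQdef
  set W := nbs H2 U2 \ QQ with hWdef
  have hab : B0.card + Aa.card = d2 := by
    rw [← hB2.reg y0]
    exact Finset.card_inter_add_card_sdiff _ _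
  have hQQc : QQ.card = q2 := by rw [hq2]; exact Q_card hB2 y0
  have hcolm : ∀ y, (col J y).card ≤ m1 := by
    intro y
    rw [← hX'c]
    apply Finset.card_le_card
    intro x hx
    rw [mem_col] at hx
    rw [hX'def, Finset.mem_filter]
    exact ⟨Finset.mem_univ _, hJ _ hx⟩
  have hcolV : ∀ y ∈ U2, (col J y).card ≤ β1 := by
    intro y hy
    refine le_trans (Finset.card_le_card ?_) hy0.le
    intro x hx
    rw [mem_col] at hx
    rw [Finset.mem_filter]
    refine ⟨Finset.mem_univ _, ?_⟩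
    intro hsub
    rw [hU2def, Finset.mem_sdiff] at hy
    exact hy.2 (hsub (by simpa using hx))
  have hJsum : J.card = ∑ y ∈ B0, (col J y).card + ∑ y ∈ U2, (col J y).card := by
    rw [← sum_col J, ← Finset.sum_union]
    · symm
      apply Finset.sum_subset (Finset.subset_univ _)
      intro y _ hy
      rw [Finset.card_eq_zero]
      apply Finset.eq_empty_of_forall_notMem
      intro x hx
      rw [mem_col] at hx
      apply hy
      have := hUJ _ hx
      simp only [hB0def, hU2def, Finset.mem_union, Finset.mem_inter, Finset.mem_sdiff]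
      tauto
    · rw [Finset.disjoint_left]
      intro y hy hy'
      simp only [hB0def, hU2def, Finset.mem_inter, Finset.mem_sdiff] at hy hy'
      tauto
  have hU2sum : ∑ y ∈ U2, (col J y).card ≤ β1 * U2.card := by
    calc ∑ y ∈ U2, (col J y).card ≤ ∑ y ∈ U2, β1 := Finset.sum_le_sum hcolV
      _ = β1 * U2.card := by simp [Nat.mul_comm]
  have hU2U : U2 ⊆ U := Finset.sdiff_subset
  have hB0U : B0 ⊆ U := Finset.inter_subset_right
  have hnmono : ∀ S T : Finset Y, S ⊆ T → nbs H2 S ⊆ nbs H2 T := by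
    intro S T hST z hz
    rw [mem_nbs] at hz ⊢
    obtain ⟨v, hv, hvz⟩ := hz
    exact ⟨v, hST hv, hvz⟩
  -- the size of `W`
  have hWc : e2 * U2.card ≤ W.card + K * U2.card := by
    have hex : e2 * U2.card ≤ (nbs H2 U2).card := by
      apply h2.ex
      have := Finset.card_le_card hU2U
      omega
    have hin : (nbs H2 U2 ∩ QQ).card ≤ K * U2.card := by
      have hsub : nbs H2 U2 ∩ QQ ⊆ U2.biUnion (fun y => nb H2 y ∩ QQ) := by
        intro z hz
        rw [Finset.mem_inter, mem_nbs] at hz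
        obtain ⟨⟨v, hv, hvz⟩, hz2⟩ := hz
        rw [Finset.mem_biUnion]
        exact ⟨v, hv, by rw [Finset.mem_inter, mem_nb]; exact ⟨hvz, hz2⟩⟩
      refine le_trans (Finset.card_le_card hsub) ?_
      rw [Nat.mul_comm]
      apply Finset.card_biUnion_le_card_mul
      intro y hy
      apply few_Q hB2 h2.p3 (w := y) (x := y0)
      · intro hadj
        rw [hU2def, Finset.mem_sdiff, mem_nb] at hy
        exact hy.2 hadj.symm
      · intro z hz
        rw [Finset.mem_inter, mem_nb, hQQdef, Finset.mem_filter] at hz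
        exact ⟨hz.1, hz.2.2⟩
    have := Finset.card_inter_add_card_sdiff (nbs H2 U2) QQ
    rw [← hWdef] at this
    omega
  have hWU : W ⊆ nbs H2 U := fun z hz => hnmono _ _ hU2U (Finset.sdiff_subset hz)
  have hBQ : nbs H2 B0 ⊆ QQ := by
    intro z hz
    rw [mem_nbs] at hz
    obtain ⟨v, hv, hvz⟩ := hz
    rw [hB0def, Finset.mem_inter, mem_nb] at hv
    rw [hQQdef, Finset.mem_filter]
    exact ⟨Finset.mem_univ _, Or.inr ⟨v, hv.1, hvz.symm⟩⟩
  have hd2 : 0 < d2 := by omega
  have hQcov : ∀ z ∈ QQ, ∃ v, H2.Adj y0 v ∧ H2.Adj v z := by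
    intro z hz
    rw [hQQdef, Finset.mem_filter] at hz
    rcases hz.2 with h | ⟨v, hv1, hv2⟩
    · have : 0 < (nb H2 y0).card := by rw [hB2.reg]; exact hd2
      obtain ⟨v, hv⟩ := Finset.card_pos.1 this
      rw [mem_nb] at hv
      exact ⟨v, hv, h ▸ hv.symm⟩
    · exact ⟨v, hv1, hv2.symm⟩
  have hQB : q2 ≤ (nbs H2 B0).card + Aa.card * d2 := by
    rw [← hQQc]
    have hsub : QQ ⊆ nbs H2 B0 ∪ nbs H2 Aa := by
      intro z hz
      obtain ⟨v, hv1, hv2⟩ := hQcov z hz
      rw [Finset.mem_union, mem_nbs, mem_nbs]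
      by_cases hvU : v ∈ U
      · exact Or.inl ⟨v, by rw [hB0def, Finset.mem_inter, mem_nb]; exact ⟨hv1, hvU⟩, hv2⟩
      · exact Or.inr ⟨v, by rw [hAadef, Finset.mem_sdiff, mem_nb]; exact ⟨hv1, hvU⟩, hv2⟩
    refine le_trans (Finset.card_le_card hsub) (le_trans (Finset.card_union_le _ _) ?_)
    apply Nat.add_le_add_left
    exact Finset.card_biUnion_le_card_mul _ _ _ (fun x _ => (hB2.reg x).le)
  have hdisW : Disjoint QQ W := Finset.disjoint_sdiff
  have hmiss1 : (nbs H2 B0).card * (d1 - K) + W.card * (d1 - K) ≤ Ms.card := by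
    apply miss_col2
    · exact Finset.disjoint_of_subset_left hBQ hdisW
    · intro y hy
      exact hcolK y (hnmono _ _ hB0U hy)
    · intro y hy
      exact hcolK y (hWU hy)
  obtain ⟨D1, hD1⟩ : ∃ D1, d1 = K + D1 := ⟨d1 - K, by omega⟩
  have hD1' : d1 - K = D1 := by omega
  rw [hD1'] at hmiss1 hcolK
  -- (s6)
  have hs6 : β1 * U2.card ≤ W.card * D1 := by
    have t1 : e2 * U2.card ≤ 2 * W.card := by
      have : 2 * K * U2.card ≤ e2 * U2.card := Nat.mul_le_mul_right _ hKe
      have h' : 2 * K * U2.card = 2 * (K * U2.card) := by ring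
      omega
    have t2 : d1 ≤ 2 * D1 := by omega
    have t3 : 16 * (β1 * U2.card) ≤ 4 * (W.card * D1) := by
      calc 16 * (β1 * U2.card) = (16 * β1) * U2.card := by ring
        _ ≤ (d1 * e2) * U2.card := Nat.mul_le_mul_right _ N4
        _ = d1 * (e2 * U2.card) := by ring
        _ ≤ (2 * D1) * (2 * W.card) := Nat.mul_le_mul t2 t1
        _ = 4 * (W.card * D1) := by ring
    omega
  have hs5 : d1 * q2 = D1 * q2 + K * q2 := by rw [hD1]; ring
  have hs4 : D1 * q2 ≤ (nbs H2 B0).card * D1 + Aa.card * d2 * D1 := by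
    calc D1 * q2 ≤ D1 * ((nbs H2 B0).card + Aa.card * d2) := Nat.mul_le_mul_left _ hQB
      _ = (nbs H2 B0).card * D1 + Aa.card * d2 * D1 := by ring
  have hs1 : d2 * m1 = Aa.card * m1 + B0.card * m1 := by rw [← hab]; ring
  rcases Nat.eq_zero_or_pos Aa.card with ha | ha
  · -- all neighbours of `y0` are in `U`
    have hb : B0.card = d2 := by omega
    have hB0eq : B0 = nb H2 y0 := by
      apply Finset.eq_of_subset_of_card_le Finset.inter_subset_left
      rw [hb, hB2.reg]
    have hbigcol : ∀ y1, H2.Adj y0 y1 → q1 < (col J y1).card := by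
      intro y1 hy1
      have hmem : y1 ∈ B0 := by rw [hB0eq, mem_nb]; exact hy1
      have hB0sum : ∑ y ∈ B0, (col J y).card + m1 ≤ B0.card * m1 + (col J y1).card := by
        rw [← Finset.add_sum_erase _ _ hmem]
        have h3 : ∑ y ∈ B0.erase y1, (col J y).card ≤ (B0.erase y1).card * m1 := by
          calc ∑ y ∈ B0.erase y1, (col J y).card ≤ ∑ y ∈ B0.erase y1, m1 :=
                Finset.sum_le_sum (fun y _ => hcolm y)
            _ = (B0.erase y1).card * m1 := by simp
        have h4 : (B0.erase y1).card + 1 = B0.card := Finset.card_erase_add_one hmem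
        have h5 : B0.card * m1 = (B0.erase y1).card * m1 + m1 := by rw [← h4]; ring
        omega
      rw [ha] at hs4
      simp only [Nat.zero_mul, Nat.add_zero] at hs4
      rw [ha] at hs1
      simp only [Nat.zero_mul, Nat.zero_add] at hs1
      omega
    have hfull : ∀ z ∈ QQ, d1 ≤ (col Ms z).card := by
      intro z hz
      rw [← hB1.reg w0]
      apply Finset.card_le_card
      intro x' hx'
      rw [mem_col, hMs0, Finset.mem_sdiff, Finset.mem_product]
      refine ⟨⟨hx', Finset.mem_univ _⟩, ?_⟩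
      intro hI'
      obtain ⟨y1, hy1, hy1z⟩ := hQcov z hz
      have hlt := hbigcol y1 hy1
      have hle : (col J y1).card ≤ q1 := by
        rw [hq1, ← Q_card hB1 x']
        apply Finset.card_le_card
        intro x hx
        rw [mem_col] at hx
        simp only [Finset.mem_filter, Finset.mem_univ, true_and]
        exact hq x' z x y1 hI' (hJI _ hx) hy1z.symm
      omega
    have hmiss2 : QQ.card * d1 + W.card * D1 ≤ Ms.card :=
      miss_col2 Ms QQ W d1 D1 hdisW hfull (fun y hy => hcolK y (hWU hy))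
    have hB0sum : ∑ y ∈ B0, (col J y).card ≤ B0.card * m1 := by
      calc ∑ y ∈ B0, (col J y).card ≤ ∑ y ∈ B0, m1 := Finset.sum_le_sum (fun y _ => hcolm y)
        _ = B0.card * m1 := by simp
    rw [hQQc, Nat.mul_comm q2 d1] at hmiss2
    rw [ha] at hs1
    simp only [Nat.zero_mul, Nat.zero_add] at hs1
    omega
  · have hB0sum : ∑ y ∈ B0, (col J y).card ≤ B0.card * m1 := by
      calc ∑ y ∈ B0, (col J y).card ≤ ∑ y ∈ B0, m1 := Finset.sum_le_sum (fun y _ => hcolm y)
        _ = B0.card * m1 := by simp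
    have hs7 : Aa.card * d2 * D1 ≤ Aa.card * (d1 * d2) := by
      calc Aa.card * d2 * D1 = Aa.card * (D1 * d2) := by ring
        _ ≤ Aa.card * (d1 * d2) :=
          Nat.mul_le_mul_left _ (Nat.mul_le_mul_right _ (by omega))
    have hs8 : Aa.card * (d1 * d2) + K * q2 + 1 ≤ Aa.card * m1 := by
      calc Aa.card * (d1 * d2) + K * q2 + 1
          ≤ Aa.card * (d1 * d2) + Aa.card * (K * q2 + 1) := by
            have : K * q2 + 1 ≤ Aa.card * (K * q2 + 1) := Nat.le_mul_of_pos_left _ ha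
            omega
        _ = Aa.card * (d1 * d2 + K * q2 + 1) := by ring
        _ ≤ Aa.card * m1 := Nat.mul_le_mul_left _ N7
    omega

theorem alpha_le {H1 : SimpleGraph X} {H2 : SimpleGraph Y}
    {d1 M1 β1 e1 q1 m1 d2 M2 β2 e2 q2 r2 K θ : ℕ}
    (h1 : Good H1 d1 β1 K θ e1) (h2 : Good H2 d2 β2 K θ e2)
    (hX : Fintype.card X = M1) (hY : Fintype.card Y = M2)
    (hc : PC d1 M1 β1 q1 m1 d2 M2 β2 e2 q2 r2 K θ) (I : Finset (X × Y))
    (hI : ∀ p ∈ I, ∀ q ∈ I, ¬ (prodG H1 H2).Adj p q) : I.card ≤ d1 * r2 + d2 * m1 := by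
  classical
  by_contra hbig
  push Not at hbig
  have hr : ∀ x y x' y', (x, y) ∈ I → (x', y') ∈ I → H1.Adj x x' → Q H2 y y' := by
    intro x y x' y' h3 h4 h5
    by_contra h6
    exact hI _ h3 _ h4 (Or.inl ⟨h5, h6⟩)
  have hq : ∀ x y x' y', (x, y) ∈ I → (x', y') ∈ I → H2.Adj y y' → Q H1 x x' := by
    intro x y x' y' h3 h4 h5
    by_contra h6
    exact hI _ h3 _ h4 (Or.inr ⟨h5, h6⟩)
  obtain ⟨w0, U0, hU0, hcen⟩ := stage1 h1 h2 hX hY hc I hI hbig
  obtain ⟨U, J, Ms, hJ0, hMs0, hU, hUc, hJ, hstar, hcolK, hu⟩ :=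
    stage2 h1 h2 hX hY hc I hr hq hbig w0 U0 hU0 hcen
  have hJI : ∀ p ∈ J, p ∈ I := by
    intro p hp
    rw [hJ0, Finset.mem_filter] at hp
    exact hp.1
  obtain ⟨y0, hy0⟩ := stage3 h1 h2 hX hY hc J
    (fun x y x' y' h3 h4 h5 => hr x y x' y' (hJI _ h3) (hJI _ h4) h5) w0 U
    (fun p hp => hU ▸ Finset.mem_image_of_mem _ hp) hJ Ms.card hstar hu
  exact stage4 h1 h2 hX hY hc I hr hq w0 U J Ms hJ0 hMs0 hU hUc hJ hstar hcolK y0 hy0

end Pool.Agent.helper11.Tight
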