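import Pool.Agent.helper74.Tight.T6b
import Pool.Agent.helper61.Tight.T2
import Pool.Agent.helper97.Tight.T4
import Pool.Agent.helper97.Tight.T5
import Pool.Agent.helper35.Tight.T6c
import Pool.Agent.helper68.Tight.T7
import Pool.Agent.helper14.Tight.BicOf

set_option linter.all false

namespace Pool.Agent.helper11.Tight

open Finset

theorem bad_bi {A s c d M β : ℕ} (h : Par A s c d M β) :
    10 * num M d (fun H => I1 H β c ∧ I2 H β c ∧ ¬ Bi H β) ≤ (fam M d).card :=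
  bad_bi_of h (fun S T hS hT hST E1 σ0 j => fj_step h hS hT hST)

/-- the union bound over the six bad events -/
theorem exists_good {A s c d M β : ℕ} (h : Par A s c d M β) :
    ∃ H : SimpleGraph (Fin M), Good H d β (8 * A + 8) (100 * (8 * A + 10)) (c ^ (A - 2)) := by
  classical
  by_contra hno
  push Not at hno
  have hpos := fam_nonempty h
  have b1 := bad_p3 h
  have b2 := bad_sub77 h
  have b3 := bad_I1 h
  have b4 := bad_I2 h
  have b5 := bad_ex h
  have b6 := bad_bi h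
  have hcov : num M d (fun _ => True) ≤
      num M d (fun H => ¬ FewP3 H (8 * A + 8) ∨ Sub77 H ∨ ¬ I1 H β c ∨ ¬ I2 H β c ∨
        ¬ Ex H β (c ^ (A - 2)) ∨ (I1 H β c ∧ I2 H β c ∧ ¬ Bi H β)) := by
    apply num_mono
    intro H hH _
    by_contra hcon
    push Not at hcon
    obtain ⟨h1, h2, h3, h4, h5, h6⟩ := hcon
    apply hno H
    exact { toBase := hH, p3 := h1, bic := bic_of hH h1 h2, bi := h6 h3 h4, ex := h5 }
  have htot : num M d (fun _ => True) = (fam M d).card := by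
    unfold num
    congr 1
    ext H
    simp
  have e1 := num_or (M := M) (d := d) (fun H => ¬ FewP3 H (8 * A + 8))
    (fun H => Sub77 H ∨ ¬ I1 H β c ∨ ¬ I2 H β c ∨
        ¬ Ex H β (c ^ (A - 2)) ∨ (I1 H β c ∧ I2 H β c ∧ ¬ Bi H β))
  have e2 := num_or (M := M) (d := d) (fun H => Sub77 H)
    (fun H => ¬ I1 H β c ∨ ¬ I2 H β c ∨
        ¬ Ex H β (c ^ (A - 2)) ∨ (I1 H β c ∧ I2 H β c ∧ ¬ Bi H β))
  have e3 := num_or (M := M) (d := d) (fun H => ¬ I1 H β c)
    (fun H => ¬ I2 H β c ∨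
        ¬ Ex H β (c ^ (A - 2)) ∨ (I1 H β c ∧ I2 H β c ∧ ¬ Bi H β))
  have e4 := num_or (M := M) (d := d) (fun H => ¬ I2 H β c)
    (fun H => ¬ Ex H β (c ^ (A - 2)) ∨ (I1 H β c ∧ I2 H β c ∧ ¬ Bi H β))
  have e5 := num_or (M := M) (d := d) (fun H => ¬ Ex H β (c ^ (A - 2)))
    (fun H => (I1 H β c ∧ I2 H β c ∧ ¬ Bi H β))
  omega

end Pool.Agent.helper11.Tight
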