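import Mathlib

set_option linter.all false

/-!
# Definitions for MP_ce98d8_co (tight graphs): bounded gap exponent 2/3

Everything about adjacency is classical and hidden inside the definitions below,
vertex types carry `[Fintype V] [DecidableEq V]`.
-/

namespace Pool.Agent.helper11.Tight

open Finset

variable {V : Type*} [Fintype V] [DecidableEq V]

open Classical in
/-- neighbourhood of a vertex -/
noncomputable def nb (H : SimpleGraph V) (v : V) : Finset V :=
  Finset.univ.filter (fun w => H.Adj v w)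

@[simp] theorem mem_nb {H : SimpleGraph V} {v w : V} : w ∈ nb H v ↔ H.Adj v w := by
  simp [nb]

/-- neighbourhood of a set -/
noncomputable def nbs (H : SimpleGraph V) (U : Finset V) : Finset V := U.biUnion (nb H)

@[simp] theorem mem_nbs {H : SimpleGraph V} {U : Finset V} {w : V} :
    w ∈ nbs H U ↔ ∃ v ∈ U, H.Adj v w := by
  simp [nbs]

/-- `Q H u v`: equal or having a common neighbour -/
def Q (H : SimpleGraph V) (u v : V) : Prop := u = v ∨ ∃ w, H.Adj u w ∧ H.Adj v w

/-- regular of degree `d`, no triangle, no four-cycle -/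
structure Base (H : SimpleGraph V) (d : ℕ) : Prop where
  reg : ∀ v, (nb H v).card = d
  tri : ∀ a b c, H.Adj a b → H.Adj b c → ¬ H.Adj a c
  c4 : ∀ u v w w', u ≠ v → H.Adj u w → H.Adj v w → H.Adj u w' → H.Adj v w' → w = w'

open Classical in
/-- the proper paths of length three between `u` and `v` -/
noncomputable def P3 (H : SimpleGraph V) (u v : V) : Finset (V × V) :=
  Finset.univ.filter (fun p => H.Adj u p.1 ∧ H.Adj p.1 p.2 ∧ H.Adj p.2 v ∧ p.1 ≠ v ∧ p.2 ≠ u)

@[simp] theorem mem_P3 {H : SimpleGraph V} {u v : V} {p : V × V} :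
    p ∈ P3 H u v ↔ H.Adj u p.1 ∧ H.Adj p.1 p.2 ∧ H.Adj p.2 v ∧ p.1 ≠ v ∧ p.2 ≠ u := by
  simp [P3]

/-- (P1) few paths of length three -/
def FewP3 (H : SimpleGraph V) (K : ℕ) : Prop := ∀ u v, u ≠ v → (P3 H u v).card ≤ K

/-- (P2) large bicliques of the relation `Q` have a centre -/
def Bic (H : SimpleGraph V) (θ : ℕ) : Prop :=
  ∀ A B : Finset V, θ < A.card → θ < B.card → (∀ a ∈ A, ∀ b ∈ B, Q H a b) →
    ∃ w, (∀ a ∈ A, H.Adj w a) ∧ (∀ b ∈ B, H.Adj w b)

/-- (P3) an edge between any two large disjoint sets -/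
def Bi (H : SimpleGraph V) (β : ℕ) : Prop :=
  ∀ A B : Finset V, Disjoint A B → β ≤ A.card → β ≤ B.card → ∃ a ∈ A, ∃ b ∈ B, H.Adj a b

/-- (P4) expansion of small sets -/
def Ex (H : SimpleGraph V) (β e : ℕ) : Prop :=
  ∀ U : Finset V, U.card ≤ 2 * β → e * U.card ≤ (nbs H U).card

/-- the graphs used as factors -/
structure Good (H : SimpleGraph V) (d β K θ e : ℕ) : Prop extends Base H d where
  p3 : FewP3 H K
  bic : Bic H θ
  bi : Bi H β
  ex : Ex H β e

open Classical in
/-- number of ordered pairs in `A × W` that are adjacent -/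
noncomputable def eo (H : SimpleGraph V) (A W : Finset V) : ℕ :=
  ((A ×ˢ W).filter (fun p => H.Adj p.1 p.2)).card

open Classical in
/-- number of edges of `H` in the region `R` -/
noncomputable def ein (H : SimpleGraph V) (R : Finset (Sym2 V)) : ℕ :=
  (R.filter (fun e => e ∈ H.edgeSet)).card

/-- the unordered pairs between two sets -/
def pairs (A W : Finset V) : Finset (Sym2 V) := (A ×ˢ W).image (fun p => s(p.1, p.2))

open Classical in
/-- the family of all labelled `d`-regular graphs without triangles and four-cycles -/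
noncomputable def fam (M d : ℕ) : Finset (SimpleGraph (Fin M)) :=
  Finset.univ.filter (fun H => Base H d)

@[simp] theorem mem_fam {M d : ℕ} {H : SimpleGraph (Fin M)} : H ∈ fam M d ↔ Base H d := by
  simp [fam]

open Classical in
/-- number of members of the family with the property `P` -/
noncomputable def num (M d : ℕ) (P : SimpleGraph (Fin M) → Prop) : ℕ :=
  ((fam M d).filter P).card

theorem num_le_card {M d : ℕ} (P : SimpleGraph (Fin M) → Prop) : num M d P ≤ (fam M d).card := by
  classical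
  exact Finset.card_le_card (Finset.filter_subset _ _)

theorem num_mono {M d : ℕ} {P P' : SimpleGraph (Fin M) → Prop}
    (h : ∀ H, Base H d → P H → P' H) : num M d P ≤ num M d P' := by
  classical
  apply Finset.card_le_card
  intro H hH
  simp only [Finset.mem_filter, mem_fam] at hH ⊢
  exact ⟨hH.1, h H hH.1 hH.2⟩

theorem num_or {M d : ℕ} (P P' : SimpleGraph (Fin M) → Prop) :
    num M d (fun H => P H ∨ P' H) ≤ num M d P + num M d P' := by
  classical
  unfold num
  refine le_trans (Finset.card_le_card ?_) (Finset.card_union_le _ _)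
  intro H hH
  simp only [Finset.mem_filter, Finset.mem_union] at hH ⊢
  rcases hH with ⟨h1, h2 | h2⟩
  · exact Or.inl ⟨h1, h2⟩
  · exact Or.inr ⟨h1, h2⟩

theorem num_exists {M d : ℕ} {ι : Type*} (s : Finset ι) (P : ι → SimpleGraph (Fin M) → Prop) :
    num M d (fun H => ∃ i ∈ s, P i H) ≤ ∑ i ∈ s, num M d (P i) := by
  classical
  unfold num
  refine le_trans (Finset.card_le_card ?_) (Finset.card_biUnion_le)
  intro H hH
  simp only [Finset.mem_filter, Finset.mem_biUnion] at hH ⊢
  obtain ⟨h1, i, hi, h2⟩ := hH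
  exact ⟨i, hi, h1, h2⟩

/-- a path (walk) of length at most three between `a` and `b` -/
def Near (H : SimpleGraph V) (a b : V) : Prop :=
  a = b ∨ H.Adj a b ∨ (∃ w, H.Adj a w ∧ H.Adj w b) ∨
    (∃ w z, H.Adj a w ∧ H.Adj w z ∧ H.Adj z b)

/-- the switch: remove `ax`, `by`, add `ab`, `xy` -/
def sw (H : SimpleGraph V) (a x b y : V) : SimpleGraph V :=
  SimpleGraph.fromEdgeSet ((H.edgeSet \ {s(a, x), s(b, y)}) ∪ {s(a, b), s(x, y)})

/-- few edges inside sets of size at most `2β` -/
def I1 (H : SimpleGraph V) (β c : ℕ) : Prop :=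
  ∀ U : Finset V, U.card ≤ 2 * β → 256 * eo H U U ≤ U.card * c ^ 2

/-- few edges between a set of size `β` and any disjoint set -/
def I2 (H : SimpleGraph V) (β c : ℕ) : Prop :=
  ∀ A W : Finset V, A.card = β → Disjoint A W →
    64 * eo H A W ≤ W.card * c ^ 2 ∨ 256 * eo H A W ≤ β * c ^ 2

/-- sum of squares of the degrees into `A` and into `B` -/
noncomputable def S2 (H : SimpleGraph V) (A B : Finset V) : ℕ :=
  ∑ w : V, ((nb H w ∩ A).card ^ 2 + (nb H w ∩ B).card ^ 2)

/-- a subdivided complete bipartite graph `K₇₇` -/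
def Sub77 (H : SimpleGraph V) : Prop :=
  ∃ (a b : Fin 7 → V) (w : Fin 7 × Fin 7 → V), Function.Injective a ∧ Function.Injective b ∧
    Function.Injective w ∧ (∀ i j, a i ≠ b j) ∧ (∀ i p, a i ≠ w p) ∧ (∀ j p, b j ≠ w p) ∧
    ∀ i j, H.Adj (a i) (w (i, j)) ∧ H.Adj (b j) (w (i, j))

/-- the parameters of the random graphs -/
structure Par (A s c d M β : ℕ) : Prop where
  hA : 10 ≤ A
  hc : c = 2 ^ s
  hd : d = c ^ A
  hM : M = c ^ (3 * A + 1)
  hβ : β = c ^ (2 * A + 2)
  hs : 1000 * (A + 1) * (s + 1) ≤ c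

/-- the product construction -/
def prodG {X Y : Type*} [Fintype X] [DecidableEq X] [Fintype Y] [DecidableEq Y]
    (H1 : SimpleGraph X) (H2 : SimpleGraph Y) : SimpleGraph (X × Y) where
  Adj p q := (H1.Adj p.1 q.1 ∧ ¬ Q H2 p.2 q.2) ∨ (H2.Adj p.2 q.2 ∧ ¬ Q H1 p.1 q.1)
  symm := by
    constructor
    intro p q h
    have hQ1 : Q H1 p.1 q.1 ↔ Q H1 q.1 p.1 := by
      unfold Q
      constructor
      · rintro (h | ⟨w, h, h'⟩)
        · exact Or.inl h.symm
        · exact Or.inr ⟨w, h', h⟩
      · rintro (h | ⟨w, h, h'⟩)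
        · exact Or.inl h.symm
        · exact Or.inr ⟨w, h', h⟩
    have hQ2 : Q H2 p.2 q.2 ↔ Q H2 q.2 p.2 := by
      unfold Q
      constructor
      · rintro (h | ⟨w, h, h'⟩)
        · exact Or.inl h.symm
        · exact Or.inr ⟨w, h', h⟩
      · rintro (h | ⟨w, h, h'⟩)
        · exact Or.inl h.symm
        · exact Or.inr ⟨w, h', h⟩
    rw [← hQ1, ← hQ2, H1.adj_comm, H2.adj_comm]
    exact h
  loopless := by
    constructor
    intro p h
    rcases h with h | h
    · exact H1.loopless.irrefl _ h.1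
    · exact H2.loopless.irrefl _ h.1

end Pool.Agent.helper11.Tight
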