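import Pool.Agent.helper11.Tight.Asm
import Pool.Agent.helper11.Tight.Alpha
import Pool.Agent.helper14.Tight.Num

set_option linter.all false

namespace Pool.Agent.helper11.Tight

open Finset

theorem Good.weaken {V : Type*} [Fintype V] [DecidableEq V] {H : SimpleGraph V}
    {d β K θ e K' θ' : ℕ} (h : Good H d β K θ e) (hK : K ≤ K') (hθ : θ ≤ θ') :
    Good H d β K' θ' e := by
  refine { toBase := h.toBase, p3 := ?_, bic := ?_, bi := h.bi, ex := h.ex }
  · intro u v huv
    exact le_trans (h.p3 u v huv) hK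
  · intro A B hA hB
    exact h.bic A B (lt_of_le_of_lt hθ hA) (lt_of_le_of_lt hθ hB)

/-- transport to `Fin n` and to Mathlib's vocabulary -/
theorem transport {V : Type*} [Fintype V] [DecidableEq V] (G : SimpleGraph V) {n k : ℕ}
    (e : V ≃ Fin n) (hreg : ∀ v, (nb G v).card = k)
    (htri : ∀ p q r, G.Adj p q → G.Adj q r → ¬ G.Adj p r)
    (hal : ∀ I : Finset V, (∀ p ∈ I, ∀ q ∈ I, ¬ G.Adj p q) → I.card ≤ k) (hn : 0 < n) :
    ∃ (G' : SimpleGraph (Fin n)) (_ : DecidableRel G'.Adj),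
      G'.IsRegularOfDegree k ∧ G'.CliqueFree 3 ∧ G'.indepNum = k := by
  classical
  refine ⟨G.comap e.symm, Classical.decRel _, ?_, ?_, ?_⟩
  · intro v
    rw [← hreg (e.symm v)]
    unfold SimpleGraph.degree
    apply Finset.card_bij (fun w _ => e.symm w)
    · intro w hw
      simpa using hw
    · intro a _ b _ hab
      exact e.symm.injective hab
    · intro w hw
      refine ⟨e w, ?_, by simp⟩
      simpa using hw
  · intro t ht
    rw [SimpleGraph.is3Clique_iff] at ht
    obtain ⟨a, b, c, hab, hac, hbc, -⟩ := ht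
    simp only [SimpleGraph.comap_adj] at hab hac hbc
    exact htri _ _ _ hab hbc hac
  · apply le_antisymm
    · obtain ⟨s, hs⟩ := (G.comap e.symm).exists_isNIndepSet_indepNum
      rw [← hs.card_eq]
      rw [← Finset.card_map e.symm.toEmbedding]
      apply hal
      intro p hp q hq hadj
      rw [Finset.mem_map] at hp hq
      obtain ⟨a, ha, rfl⟩ := hp
      obtain ⟨b, hb, rfl⟩ := hq
      have hne : a ≠ b := by
        rintro rfl
        exact G.loopless.irrefl _ hadj
      exact hs.isIndepSet (by exact_mod_cast ha) (by exact_mod_cast hb) hne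
        (by simpa using hadj)
    · set v := e.symm ⟨0, hn⟩ with hv
      have h1 : ((nb G v).map e.toEmbedding).card = k := by
        rw [Finset.card_map, hreg]
      rw [← h1]
      apply SimpleGraph.IsIndepSet.card_le_indepNum
      intro a ha b hb hab hadj
      simp only [Finset.coe_map, Set.mem_image, Finset.mem_coe, mem_nb] at ha hb
      obtain ⟨a', ha', rfl⟩ := ha
      obtain ⟨b', hb', rfl⟩ := hb
      simp only [SimpleGraph.comap_adj, Equiv.coe_toEmbedding, Equiv.symm_apply_apply] at hadj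
      exact htri _ _ _ ha'.symm.symm hadj hb'

theorem final' : ∀ ε : ℝ, 0 < ε → ∀ N : ℕ, ∃ n : ℕ, N ≤ n ∧
    ∃ (G : SimpleGraph (Fin n)) (_ : DecidableRel G.Adj) (k : ℕ),
      G.IsRegularOfDegree k ∧ G.CliqueFree 3 ∧ G.indepNum = k ∧
        (k : ℝ) < (n : ℝ) ^ ((2 : ℝ) / 3 + ε) := by
  intro ε hε N
  obtain ⟨A0, hA0⟩ := exists_nat_gt (1 / ε)
  set A := A0 + 10 with hA
  obtain ⟨sa, hsa⟩ := par_exists A (by omega)
  obtain ⟨sb, hsb⟩ := par_exists (A + 5) (by omega)
  set s := sa + sb + N + 2 with hs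
  have p1 := hsa s (by omega)
  have p2 := hsb s (by omega)
  set c := 2 ^ s with hc
  obtain ⟨H1, g1⟩ := exists_good p1
  obtain ⟨H2, g2⟩ := exists_good p2
  obtain ⟨q1, m1, q2, r2, hpc⟩ := pc_of p1 p2
  have g1' : Good H1 (c ^ A) (c ^ (2 * A + 2)) (8 * A + 48) (100 * (8 * A + 50)) (c ^ (A - 2)) :=
    g1.weaken (by omega) (by omega)
  have g2' : Good H2 (c ^ (A + 5)) (c ^ (2 * (A + 5) + 2)) (8 * A + 48) (100 * (8 * A + 50))
      (c ^ (A + 3)) := by
    have e1 : A + 5 - 2 = A + 3 := by omega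
    rw [e1] at g2
    exact g2.weaken (by omega) (by omega)
  have hcpos : 4 ≤ c := by
    calc 4 = 2 ^ 2 := by norm_num
      _ ≤ 2 ^ s := Nat.pow_le_pow_right (by norm_num) (by omega)
  have hN : N ≤ c := by
    calc N ≤ s := by omega
      _ ≤ 2 ^ s := Nat.lt_two_pow_self.le
  have hn : c ^ (3 * A + 1) * c ^ (3 * (A + 5) + 1) = c ^ (6 * A + 17) := by
    rw [← pow_add]
    congr 1
    ring
  refine ⟨c ^ (3 * A + 1) * c ^ (3 * (A + 5) + 1), ?_, ?_⟩
  · rw [hn]
    calc N ≤ c := hN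
      _ = c ^ 1 := (pow_one c).symm
      _ ≤ c ^ (6 * A + 17) := Nat.pow_le_pow_right (by omega) (by omega)
  · obtain ⟨G', inst, hreg, hcf, hin⟩ := transport (prodG H1 H2) finProdFinEquiv
      (k := c ^ A * r2 + c ^ (A + 5) * m1)
      (fun p => prodG_reg g1'.toBase g2'.toBase (by
        rw [Fintype.card_fin]; have := hpc.hM1; rw [hpc.hq1] at this; exact this)
        (by rw [Fintype.card_fin]; have := hpc.hM2; rw [hpc.hq2] at this; exact this) p)
      (fun p q r => prodG_tri g1'.toBase g2'.toBase p q r)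
      (fun I hI => alpha_le g1' g2' (Fintype.card_fin _) (Fintype.card_fin _) hpc I hI)
      (by positivity)
    refine ⟨G', inst, _, hreg, hcf, hin, ?_⟩
    have hk : c ^ A * r2 + c ^ (A + 5) * m1 < c ^ (4 * A + 17) := by
      have h1 : r2 ≤ c ^ (3 * (A + 5) + 1) := by have := hpc.hM2; omega
      have h2 : m1 ≤ c ^ (3 * A + 1) := by have := hpc.hM1; omega
      calc c ^ A * r2 + c ^ (A + 5) * m1
          ≤ c ^ A * c ^ (3 * (A + 5) + 1) + c ^ (A + 5) * c ^ (3 * A + 1) :=
            Nat.add_le_add (Nat.mul_le_mul_left _ h1) (Nat.mul_le_mul_left _ h2)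
        _ = c ^ (4 * A + 16) + c ^ (4 * A + 6) := by
            rw [← pow_add, ← pow_add]
            congr 2 <;> ring
        _ ≤ c ^ (4 * A + 16) + c ^ (4 * A + 16) := by
            apply Nat.add_le_add_left
            exact Nat.pow_le_pow_right (by omega) (by omega)
        _ = 2 * c ^ (4 * A + 16) := by ring
        _ < c * c ^ (4 * A + 16) := by
            apply Nat.mul_lt_mul_of_pos_right (by omega) (by positivity)
        _ = c ^ (4 * A + 17) := by ring
    have hc1 : (1 : ℝ) ≤ (c : ℝ) := by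
      have : (1 : ℕ) ≤ c := by omega
      exact_mod_cast this
    have hexp : ((4 * A + 17 : ℕ) : ℝ) ≤ ((6 * A + 17 : ℕ) : ℝ) * ((2 : ℝ) / 3 + ε) := by
      have h1 : 1 < (A0 : ℝ) * ε := by
        rw [div_lt_iff₀ hε] at hA0
        exact hA0
      have h2 : ((A : ℕ) : ℝ) = (A0 : ℝ) + 10 := by rw [hA]; push_cast; ring
      push_cast
      rw [h2]
      nlinarith
    calc ((c ^ A * r2 + c ^ (A + 5) * m1 : ℕ) : ℝ) < ((c ^ (4 * A + 17) : ℕ) : ℝ) := by
          exact_mod_cast hk
      _ = (c : ℝ) ^ (((4 * A + 17 : ℕ) : ℝ)) := by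
          rw [Real.rpow_natCast]
          push_cast
          rfl
      _ ≤ (c : ℝ) ^ (((6 * A + 17 : ℕ) : ℝ) * ((2 : ℝ) / 3 + ε)) :=
          Real.rpow_le_rpow_of_exponent_le hc1 hexp
      _ = (((c ^ (3 * A + 1) * c ^ (3 * (A + 5) + 1) : ℕ)) : ℝ) ^ ((2 : ℝ) / 3 + ε) := by
          rw [hn, Real.rpow_mul (by positivity), Real.rpow_natCast]
          push_cast
          rfl

end Pool.Agent.helper11.Tight
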